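import Pool.Agent.H19M.Stm

set_option autoImplicit false

open Filter Topology Pool.Agent.N709.UM

universe u

namespace Pool.Agent.H19M

theorem per : S_PER.{u} := by
  classical
  intro H _ ρ hρ F hF κ l
  constructor
  · intro hl
    refine ⟨{(1, -1)}, Filter.Eventually.of_forall fun x => ⟨(1, -1), Finset.mem_singleton_self _, ?_⟩⟩
    intro hcon
    have h1 := hF.one _ hcon
    apply h1
    have h2 : κ + κ * (-1 : ℤ) = 0 := by ring
    simp only [h2, zpow_zero, one_zpow, mul_one]
    rw [hρ.one]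
    exact hl
  · rintro c s ⟨E, hE⟩
    refine ⟨E.image (fun e => (e.1, e.2 - s)), hE.mono fun x hx => ?_⟩
    obtain ⟨e, he, hb⟩ := hx
    refine ⟨(e.1, e.2 - s), Finset.mem_image.2 ⟨e, he, rfl⟩, ?_⟩
    have h2 : c + κ * s + κ * (e.2 - s) = c + κ * e.2 := by ring
    simp only [h2]
    exact hb

end Pool.Agent.H19M
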